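import Pool.Agent.H319R2.GMoller2

/-!
# Lengths of the cycles of Möller's generalised Hasse–Syracuse maps

Let `m ≤ d ^ (d / (d - 1))` be coprime to `d` and let the `r j` be admissible.  Almost no positive
integer is the number of elements of a cycle of `T` on the integers, and almost no positive integer is
the number of elements not divisible by `d` of a cycle of `T`, that is, the length of a cycle of `H`.
(Every cycle of positive integers contains an element of `E(d, m, R)`, its minimum; so this is a
necessary condition for the finiteness of `E(d, m, R)`.)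

Proof: on a cycle with large elements `|o log m - p log d|` is small (`p` elements, `o` of them not
divisible by `d`), because the sum of the reciprocals of the elements of a cycle is bounded by a
negative power of the smallest element (library `Pool.Agent.H319R2`, helper319); `log d / log m` is
irrational, and only a small proportion of the integers `p` has `p log d / log m` near an integer.
-/

set_option autoImplicit false

namespace Pool.Agent.Results.MP_fd8838_nt.CycleLengths

open Finset Filter Topology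

/-- Möller's map on the integers: `n / d` if `d` divides `n`, and `(m n - r j) / d` if
`n ≡ j (mod d)`, `1 ≤ j < d` -/
def T (d m : ℕ) (r : ℕ → ℤ) (n : ℤ) : ℤ :=
  if (d : ℤ) ∣ n then n / d else (m * n - r (n % d).toNat) / d

/-- the periodic orbits (cycles) of a map on the integers, as finite sets:
`{x, f x, ..., f^(p-1) x}` with `p ≥ 1` and `f^p x = x` -/
def IsCycle (f : ℤ → ℤ) (c : Finset ℤ) : Prop :=
  ∃ (x : ℤ) (p : ℕ), 1 ≤ p ∧ f^[p] x = x ∧ c = (range p).image (fun j => f^[j] x)

/-- the numbers `p ≤ P` for which some cycle of `f` has exactly `p` elements -/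
def lengths (f : ℤ → ℤ) (P : ℕ) : Set ℕ := {p | p ≤ P ∧ ∃ c, IsCycle f c ∧ c.card = p}

/-- the numbers `q ≤ P` for which some cycle of `f` has exactly `q` elements not divisible by `d` -/
def primeLengths (d : ℕ) (f : ℤ → ℤ) (P : ℕ) : Set ℕ :=
  {q | q ≤ P ∧ ∃ c, IsCycle f c ∧ (c.filter (fun n => ¬ (d : ℤ) ∣ n)).card = q}

theorem cycle_period {f : ℤ → ℤ} {c : Finset ℤ} (hc : IsCycle f c) :
    ∃ (x : ℤ) (p : ℕ), 0 < p ∧ Function.minimalPeriod f x = p ∧ c.card = p ∧
      ∀ d : ℕ, (c.filter (fun n => ¬ (d : ℤ) ∣ n)).card =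
        ((range p).filter fun j => ¬ (d : ℤ) ∣ f^[j] x).card := by
  classical
  obtain ⟨x, p0, hp0, hx, rfl⟩ := hc
  have hper : Function.IsPeriodicPt f p0 x := hx
  have hpos : 0 < Function.minimalPeriod f x := hper.minimalPeriod_pos (by omega)
  set p := Function.minimalPeriod f x with hp
  have hinj : Set.InjOn (fun j => f^[j] x) (range p : Finset ℕ) := by
    intro i hi j hj hij
    have h1 : i < p := mem_range.1 (by exact_mod_cast hi)
    have h2 : j < p := mem_range.1 (by exact_mod_cast hj)
    exact Function.iterate_injOn_Iio_minimalPeriod (f := f) (x := x) h1 h2 hij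
  have himg : (range p0).image (fun j => f^[j] x) = (range p).image (fun j => f^[j] x) := by
    ext y
    simp only [mem_image, mem_range]
    constructor
    · rintro ⟨j, _, rfl⟩
      exact ⟨j % p, Nat.mod_lt _ hpos, Function.iterate_mod_minimalPeriod_eq⟩
    · rintro ⟨j, hj, rfl⟩
      exact ⟨j, lt_of_lt_of_le hj (hper.minimalPeriod_le (by omega)), rfl⟩
  refine ⟨x, p, hpos, rfl, ?_, ?_⟩
  · rw [himg, card_image_of_injOn hinj, card_range]
  · intro d
    rw [himg, filter_image, card_image_of_injOn]
    intro i hi j hj hij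
    exact hinj (filter_subset _ _ hi) (filter_subset _ _ hj) hij

theorem tendsto_of_bound {S : ℕ → Set ℕ}
    (h : ∀ K : ℕ, 1 ≤ K → ∃ D : ℕ, ∀ P : ℕ, (S P).ncard ≤ P / K + D) :
    Tendsto (fun P : ℕ => ((S P).ncard : ℝ) / P) atTop (𝓝 0) := by
  rw [Metric.tendsto_atTop]
  intro ε hε
  obtain ⟨K, hK⟩ := exists_nat_gt (2 / ε)
  have hK0 : (0 : ℝ) < K := lt_trans (by positivity) hK
  have hK1 : 1 ≤ K := by exact_mod_cast hK0
  obtain ⟨D, hD⟩ := h K hK1
  obtain ⟨N, hN⟩ := exists_nat_gt (2 * D / ε)
  refine ⟨N + 1, fun P hP => ?_⟩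
  have hP0 : (0 : ℝ) < P := by
    have : 0 < P := by omega
    exact_mod_cast this
  have hNP : (N : ℝ) ≤ P := by
    have : N ≤ P := by omega
    exact_mod_cast this
  rw [Real.dist_eq, sub_zero, abs_of_nonneg (by positivity), div_lt_iff₀ hP0]
  have h1 : ((S P).ncard : ℝ) ≤ (P : ℝ) / K + D := by
    have h2 : ((S P).ncard : ℝ) ≤ ((P / K + D : ℕ) : ℝ) := by exact_mod_cast hD P
    refine h2.trans ?_
    push_cast
    have h3 : ((P / K : ℕ) : ℝ) ≤ (P : ℝ) / K := Nat.cast_div_le
    linarith
  have h4 : (P : ℝ) / K < ε / 2 * P := by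
    rw [div_lt_iff₀ hK0]
    have h5 : 1 < ε / 2 * K := by
      have := mul_lt_mul_of_pos_left hK (half_pos hε)
      have e : ε / 2 * (2 / ε) = 1 := by field_simp
      rwa [e] at this
    nlinarith
  have h6 : (D : ℝ) < ε / 2 * P := by
    have h7 : 2 * (D : ℝ) / ε < P := lt_of_lt_of_le hN hNP
    rw [div_lt_iff₀ hε] at h7
    linarith
  linarith

/-- **Lengths of cycles.** Let `d ≥ 2`, `m ≥ 1` be coprime, `m ≤ d ^ (d / (d - 1))`, and let the `r j` be
admissible.  The set of the lengths of the cycles of `T` on the integers has natural density zero, and so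
has the set of the numbers of elements not divisible by `d` of the cycles of `T` (the lengths of the cycles
of `H`). -/
theorem result (d m : ℕ) (hd : 2 ≤ d) (hm : 1 ≤ m) (hc : Nat.Coprime m d)
    (hle : (m : ℝ) ≤ (d : ℝ) ^ ((d : ℝ) / ((d : ℝ) - 1)))
    (r : ℕ → ℤ) (hr : ∀ j : ℕ, 1 ≤ j → j < d → (d : ℤ) ∣ m * j - r j) :
    Tendsto (fun P : ℕ => ((lengths (T d m r) P).ncard : ℝ) / P) atTop (𝓝 0) ∧
    Tendsto (fun P : ℕ => ((primeLengths d (T d m r) P).ncard : ℝ) / P) atTop (𝓝 0) := by
  classical
  have hle' : m ^ (d - 1) ≤ d ^ d := Pool.Agent.H319R2.Moller.pow_le_of_rpow hd hle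
  have hT : T d m r = Pool.Agent.H319R2.Moller.T d m r := rfl
  constructor
  · refine tendsto_of_bound fun K hK => ?_
    obtain ⟨D, hD⟩ := Pool.Agent.H319R2.Moller.lengths_bound hd hm hc hle' hr K hK
    refine ⟨D, fun P => ?_⟩
    have hfin : (lengths (T d m r) P).Finite := (Set.finite_Iic P).subset fun p hp => hp.1
    rw [Set.ncard_eq_toFinset_card _ hfin]
    refine hD P hfin.toFinset (Or.inl fun p hp => ?_)
    rw [Set.Finite.mem_toFinset] at hp
    obtain ⟨h1, c, h2, h3⟩ := hp
    obtain ⟨x, q, hq, hx, hcq, -⟩ := cycle_period h2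
    obtain rfl : p = q := by omega
    exact ⟨h1, hq, x, by rw [← hT]; exact hx⟩
  · refine tendsto_of_bound fun K hK => ?_
    obtain ⟨D, hD⟩ := Pool.Agent.H319R2.Moller.lengths_bound hd hm hc hle' hr K hK
    refine ⟨D, fun P => ?_⟩
    have hfin : (primeLengths d (T d m r) P).Finite := (Set.finite_Iic P).subset fun p hp => hp.1
    rw [Set.ncard_eq_toFinset_card _ hfin]
    refine hD P hfin.toFinset (Or.inr fun o ho => ?_)
    rw [Set.Finite.mem_toFinset] at ho
    obtain ⟨h1, c, h2, h3⟩ := ho
    obtain ⟨x, q, hq, hx, -, hf⟩ := cycle_period h2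
    refine ⟨h1, x, q, hq, by rw [← hT]; exact hx, ?_⟩
    rw [← h3, hf d]
    rfl

end Pool.Agent.Results.MP_fd8838_nt.CycleLengths
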