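import Pool.Agent.N681.AI.B6
import Pool.Agent.Results.MP_fd8838_nt.CaptureRate
import Pool.Agent.Results.MP_fd8838_nt.ExceptionalCapture

/-!
# Möller's maps: the law of the minima of the orbits, and when a minimum has positive density

For all coprime `d, m ≥ 2` with `m ≤ d ^ (d / (d - 1))` and all admissible `R`: the positive integers whose `T`-orbit
has minimum `e` have a natural density `D(e)`; `∑ D(e)` over `e ∈ E(d, m, R)` is `1 - η`, `η` the density of the orbits
which leave the positive integers; the tails of this series are `O(y ^ (-c))`; `D(e) > 0` exactly if the orbit of `e`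
has minimum `e` and `e` has ancestors of all orders; and `E(d, m, R)` is finite iff the positive `D(e)` are bounded
away from zero.
-/

set_option autoImplicit false

namespace Pool.Agent.Results.MP_fd8838_nt.LawOfMinima

open Filter Topology
open Pool.Agent.H319R3.GC Pool.Agent.N681.AI

/-- the map `T(n) = n / d` if `d ∣ n` and `(m n - r_j) / d` if `n ≡ j mod d`, `1 ≤ j < d`; the points of a
`T`-orbit that are not divisible by `d` form the `H`-orbit -/
def T (d m : ℕ) (r : ℕ → ℤ) (n : ℤ) : ℤ :=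
  if (d : ℤ) ∣ n then n / d else (m * n - r (n % d).toNat) / d

/-- the exceptional set `E(d, m, R)`, in terms of `T`: the integers `e > 0` not divisible by `d` such that,
as long as the orbit of `e` stays positive, its terms not divisible by `d` (the terms of the `H`-orbit)
are `≥ e` -/
def E (d m : ℕ) (r : ℕ → ℤ) : Set ℤ :=
  {e : ℤ | 0 < e ∧ ¬ (d : ℤ) ∣ e ∧ ∀ k : ℕ, (∀ j ≤ k, 0 < (T d m r)^[j] e) →
    ¬ (d : ℤ) ∣ (T d m r)^[k] e → e ≤ (T d m r)^[k] e}

/-- natural density among the positive integers: `#{n ∈ S : 1 ≤ n ≤ N} / N → δ` -/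
def HasDensity (S : Set ℤ) (δ : ℝ) : Prop :=
  Tendsto (fun N : ℕ => (Set.ncard {n : ℤ | n ∈ S ∧ 1 ≤ n ∧ n ≤ (N : ℤ)} : ℝ) / N) atTop (𝓝 δ)

/-- the integers whose `T`-orbit has minimum `e` -/
def WithMin (d m : ℕ) (r : ℕ → ℤ) (e : ℤ) : Set ℤ :=
  {n : ℤ | (∀ k : ℕ, e ≤ (T d m r)^[k] n) ∧ ∃ k : ℕ, (T d m r)^[k] n = e}

/-- the integers whose `T`-orbit leaves the positive integers -/
def Leaving (d m : ℕ) (r : ℕ → ℤ) : Set ℤ := {n : ℤ | ∃ k : ℕ, (T d m r)^[k] n ≤ 0}

/-- `e` has ancestors of all orders: for every `s` some `T`-orbit reaches `e` after passing through at least `s`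
terms not divisible by `d` (that is, after at least `s` applications of `(m x - r_j) / d`) -/
def Deep (d m : ℕ) (r : ℕ → ℤ) (e : ℤ) : Prop :=
  ∀ s : ℕ, ∃ (x : ℤ) (k : ℕ), (T d m r)^[k] x = e ∧
    s ≤ ((Finset.range k).filter fun i => ¬ (d : ℤ) ∣ (T d m r)^[i] x).card

/-- the offsets with `0` for the letter `0` -/
def r0 (r : ℕ → ℤ) : ℕ → ℤ := fun i => if i = 0 then 0 else r i

theorem T_eq (d m : ℕ) (hd : 2 ≤ d) (r : ℕ → ℤ) :
    T d m r = Tm d (Pool.Agent.TH930.GH.mq m) (r0 r) :=
  CaptureRate.T_eq d m hd r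

theorem adm {d m : ℕ} (hd : 2 ≤ d) (hm : 2 ≤ m) (hc : Nat.Coprime m d)
    (hle : (m : ℝ) ≤ (d : ℝ) ^ ((d : ℝ) / ((d : ℝ) - 1))) {r : ℕ → ℤ}
    (hr : ∀ j : ℕ, 1 ≤ j → j < d → r j ≡ m * j [ZMOD d]) :
    Adm d (Pool.Agent.TH930.GH.mq m) (r0 r) := by
  refine ⟨hd, ?_, CaptureRate.adm_r hr, ?_, ?_⟩
  · intro i _
    simp only [Pool.Agent.TH930.GH.mq]
    split_ifs
    · exact isCoprime_one_left
    · exact Nat.isCoprime_iff_coprime.2 hc
  · rw [Pool.Agent.TH930.GH.prod_mq hd]
    exact CaptureRate.pow_lt hd hc hle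
  · rw [Pool.Agent.TH930.GH.prod_mq hd]
    calc 2 ≤ m := hm
      _ = m ^ 1 := (pow_one m).symm
      _ ≤ m ^ (d - 1) := Nat.pow_le_pow_right (by omega) (by omega)

theorem mol (d m : ℕ) (r : ℕ → ℤ) :
    Pool.Agent.H319R3.PO.Mol d m (Pool.Agent.TH930.GH.mq m) (r0 r) := by
  refine ⟨by simp [Pool.Agent.TH930.GH.mq], by simp [r0], ?_⟩
  intro i hi1 _
  have : i ≠ 0 := by omega
  simp [Pool.Agent.TH930.GH.mq, this]

/-- the number of nonzero letters -/
theorem nz_card {d : ℕ} (hd : 2 ≤ d) (m r : ℕ → ℤ) (k : ℕ) (x : ℤ) :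
    Pool.Agent.W39.nz d m r k x =
      ((Finset.range k).filter fun i => ¬ (d : ℤ) ∣ (Tm d m r)^[i] x).card := by
  induction k with
  | zero => simp [Pool.Agent.W39.nz, wd]
  | succ k ih =>
    rw [Pool.Agent.W39.nz_add, ih, Finset.range_add_one, Finset.filter_insert]
    by_cases h : (d : ℤ) ∣ (Tm d m r)^[k] x
    · have h1 : Pool.Agent.W39.nz d m r 1 ((Tm d m r)^[k] x) = 0 := by
        unfold Pool.Agent.W39.nz
        have h2 : (((Tm d m r)^[k] x) % (d : ℤ)).toNat = 0 := by
          rw [Int.emod_eq_zero_of_dvd h]; rfl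
        simp [wd, h2]
      rw [h1, if_neg (not_not.2 h), add_zero]
    · rw [Pool.Agent.W39.nz_one h hd, if_pos h, Finset.card_insert_of_notMem (by simp)]

/-- **Theorem.** Let `d, m ≥ 2` be coprime with `m ≤ d ^ (d / (d - 1))`. There is `c > 0`, with
`c > 1 - h(d, m)` if `m > d` where `h(d, m)` is the `d`-ary entropy of `log d / log m` in base `d`, such that for every
admissible `R` there are `D(e)`, `η` and `C` with:
(1) the positive integers whose `T`-orbit leaves the positive integers have density `η`, and `η = 0` if all `r_j ≤ 0`;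
(2) for every `e > 0` the positive integers whose `T`-orbit has minimum `e` have density `D(e)`;
(3) `D(e) > 0` if and only if the orbit of `e` has minimum `e` and `e` has ancestors of all orders;
(4) the sum of the `D(e)` over the exceptional set `E(d, m, R)` is `1 - η`;
(5) for `y ≥ 1` the sum of the `D(e)` over any finite set of elements `> y` of `E(d, m, R)` is at most `C y^(-c)`;
(6) if the orbit of `x` stays positive, then for all large `k` such that `T^k(x)` is the minimum of the orbit from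
there on (in particular for the minimum of a cycle) one has `D(T^k(x)) > 0`;
(7) `E(d, m, R)` is finite if and only if there is `ε > 0` such that `D(e) ≥ ε` for all `e ∈ E(d, m, R)` with
`D(e) > 0`. -/
theorem result (d m : ℕ) (hd : 2 ≤ d) (hm : 2 ≤ m) (hc : Nat.Coprime m d)
    (hle : (m : ℝ) ≤ (d : ℝ) ^ ((d : ℝ) / ((d : ℝ) - 1))) :
    ∃ c : ℝ, 0 < c ∧
      (d < m → 1 - Real.qaryEntropy d (Real.log d / Real.log m) / Real.log d < c) ∧
      ∀ r : ℕ → ℤ, (∀ j : ℕ, 1 ≤ j → j < d → r j ≡ m * j [ZMOD d]) →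
      ∃ (D : ℤ → ℝ) (η C : ℝ), 0 < C ∧
        (HasDensity (Leaving d m r) η ∧ ((∀ j : ℕ, 1 ≤ j → j < d → r j ≤ 0) → η = 0)) ∧
        (∀ e : ℤ, 0 < e → HasDensity (WithMin d m r e) (D e)) ∧
        (∀ e : ℤ, 0 < e → (0 < D e ↔ (∀ k : ℕ, e ≤ (T d m r)^[k] e) ∧ Deep d m r e)) ∧
        HasSum (fun e : E d m r => D e) (1 - η) ∧
        (∀ y : ℝ, 1 ≤ y → ∀ S : Finset ℤ, (∀ e ∈ S, e ∈ E d m r ∧ y < (e : ℝ)) →
          ∑ e ∈ S, D e ≤ C / y ^ c) ∧
        (∀ x : ℤ, (∀ k : ℕ, 0 < (T d m r)^[k] x) → ∃ k₀ : ℕ, ∀ k : ℕ, k₀ ≤ k →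
          (∀ j : ℕ, k ≤ j → (T d m r)^[k] x ≤ (T d m r)^[j] x) → 0 < D ((T d m r)^[k] x)) ∧
        ((E d m r).Finite ↔ ∃ ε : ℝ, 0 < ε ∧ ∀ e ∈ E d m r, 0 < D e → ε ≤ D e) := by
  classical
  -- the rate
  have hrate : ∃ c : ℝ, 0 < c ∧
      (d < m → 1 - Real.qaryEntropy d (Real.log d / Real.log m) / Real.log d < c) ∧
      ∀ r : ℕ → ℤ, (∀ j : ℕ, 1 ≤ j → j < d → r j ≡ m * j [ZMOD d]) →
      ∃ C : ℝ, 0 < C ∧ ∀ X y : ℝ, 1 ≤ X → 1 ≤ y →
        (Set.ncard {n : ℤ | 1 ≤ n ∧ (n : ℝ) ≤ X ∧ (∀ k : ℕ, 0 < (T d m r)^[k] n) ∧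
          ∀ k : ℕ, (T d m r)^[k] n ∈ E d m r → y < (((T d m r)^[k] n : ℤ) : ℝ)} : ℝ) ≤
          C * X / y ^ c := by
    by_cases hdm : d < m
    · obtain ⟨c, h1, h2, h3⟩ := CaptureRate.result d m hd hdm hc hle
      exact ⟨c, h1, fun _ => h2, h3⟩
    · obtain ⟨c, h1, h3⟩ := ExceptionalCapture.result d m hd hm hc hle
      refine ⟨c, h1, fun h => absurd h hdm, fun r hr => ?_⟩
      obtain ⟨C, hC, h4⟩ := h3 r hr
      exact ⟨C, hC, fun X y hX hy => (h4 X y hX hy).1⟩
  obtain ⟨c, hc0, hcm, hrate⟩ := hrate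
  refine ⟨c, hc0, hcm, fun r hr => ?_⟩
  obtain ⟨C, hC, hcap⟩ := hrate r hr
  have hA := adm hd hm hc hle hr
  have hM := mol d m r
  have hT := T_eq d m hd r
  set mm := Pool.Agent.TH930.GH.mq m with hmm
  have hmp : ∀ i < d, 0 < mm i := by
    intro i _
    simp only [hmm, Pool.Agent.TH930.GH.mq]
    split_ifs
    · exact one_pos
    · exact_mod_cast (by omega : 0 < m)
  have hij : (mm 0).natAbs ≠ (mm 1).natAbs := by
    simp [hmm, Pool.Agent.TH930.GH.mq]
    omega
  have hWL : ∀ e, WithMin d m r e = Lm d mm (r0 r) e := by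
    intro e
    unfold WithMin Lm
    rw [hT]
  have hLN : Leaving d m r = Ng d mm (r0 r) := by
    unfold Leaving Ng
    rw [hT]
  -- the densities
  have hDe : ∀ e : ℤ, ∃ δ : ℝ, 0 < e → HasDensity (WithMin d m r e) δ ∧
      Tendsto (fun X : ℝ => Pool.Agent.H319R3.DN.G (Lm d mm (r0 r) e) 1 X / X) atTop (𝓝 δ) := by
    intro e
    by_cases he : 0 < e
    · obtain ⟨c₀, h1⟩ := Lm_ainv hA hmp he
      obtain ⟨δ, h2, h3⟩ := hasD_of_ainv hA (by omega : 0 < d) (by omega : 1 < d) hij h1
      refine ⟨δ, fun _ => ⟨?_, h3⟩⟩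
      rw [hWL]
      exact h2
    · exact ⟨0, fun h => absurd h he⟩
  choose D hD using hDe
  obtain ⟨η, hη⟩ : ∃ η : ℝ, HasDensity (Leaving d m r) η := by
    obtain ⟨c₀, h1⟩ := Ng_ainv hA hmp
    obtain ⟨δ, h2, -⟩ := hasD_of_ainv hA (by omega : 0 < d) (by omega : 1 < d) hij h1
    refine ⟨δ, ?_⟩
    rw [hLN]
    exact h2
  have hD0 : ∀ e, 0 < e → 0 ≤ D e := fun e he => HasD.nonneg (hD e he).1
  have hDpos : ∀ e, 0 < e →
      ¬ Tendsto (fun X : ℝ => Pool.Agent.H319R3.DN.G (Lm d mm (r0 r) e) 1 X / X) atTop (𝓝 0) →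
      0 < D e := by
    intro e he hnot
    obtain ⟨h1, h2⟩ := hD e he
    rw [hWL e] at h1
    exact pos_of_not (S := Lm d mm (r0 r) e) h1 h2 hnot
  -- the minima
  have hminE : ∀ e : ℤ, 0 < e → (∀ k, e ≤ (T d m r)^[k] e) → e ∈ E d m r := by
    intro e he hmin
    refine ⟨he, ?_, fun k _ _ => hmin k⟩
    rintro ⟨t, ht⟩
    have h1 := hmin 1
    have hd0 : (0 : ℤ) < d := by exact_mod_cast (by omega : 0 < d)
    have hd2 : (2 : ℤ) ≤ d := by exact_mod_cast hd
    have h2 : (T d m r)^[1] e = t := by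
      show T d m r e = t
      unfold T
      rw [if_pos ⟨t, ht⟩, ht, Int.mul_ediv_cancel_left _ hd0.ne']
    rw [h2] at h1
    have ht0 : 0 < t := lt_of_lt_of_le he h1
    nlinarith
  have hself : ∀ e n : ℤ, n ∈ WithMin d m r e → ∀ k, e ≤ (T d m r)^[k] e := by
    rintro e n ⟨h1, k', h2⟩ k
    rw [← h2, ← Function.iterate_add_apply, h2]
    exact h1 _
  -- the law
  have hlaw := law_sum (E := E d m r) (fun e he => he.1) (N₀ := Leaving d m r)
    (L := WithMin d m r) (η := η) (D := D) (C := C) (c := c) hc0 hη (fun e he => (hD e he.1).1)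
    (fun e he n hn => by
      rw [hLN]
      rw [hWL] at hn
      exact Lm_not_Ng he.1 hn)
    (fun e _ e' _ hne n hn => by
      rw [hWL] at hn ⊢
      exact Lm_disj hne hn)
    (fun N y hN hy => by
      refine le_trans ?_ (hcap N y (by exact_mod_cast hN) hy)
      unfold cp
      have hfin : {n : ℤ | 1 ≤ n ∧ (n : ℝ) ≤ (N : ℝ) ∧ (∀ k : ℕ, 0 < (T d m r)^[k] n) ∧
          ∀ k : ℕ, (T d m r)^[k] n ∈ E d m r → y < (((T d m r)^[k] n : ℤ) : ℝ)}.Finite := by
        apply (Set.finite_Icc (1 : ℤ) N).subset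
        rintro n ⟨h1, h2, -⟩
        exact ⟨h1, by exact_mod_cast h2⟩
      have hsub : {n : ℤ | n ∈ {n : ℤ | n ∉ Leaving d m r ∧ ∀ e ∈ E d m r, (e : ℝ) ≤ y →
          n ∉ WithMin d m r e} ∧ 1 ≤ n ∧ n ≤ (N : ℤ)} ⊆
          {n : ℤ | 1 ≤ n ∧ (n : ℝ) ≤ (N : ℝ) ∧ (∀ k : ℕ, 0 < (T d m r)^[k] n) ∧
          ∀ k : ℕ, (T d m r)^[k] n ∈ E d m r → y < (((T d m r)^[k] n : ℤ) : ℝ)} := by
        rintro n ⟨⟨h1, h2⟩, h3, h4⟩
        have hpos : ∀ k : ℕ, 0 < (T d m r)^[k] n := by
          intro k
          by_contra hcon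
          exact h1 ⟨k, not_lt.1 hcon⟩
        refine ⟨h3, by exact_mod_cast h4, hpos, fun k _ => ?_⟩
        obtain ⟨e, he0, he⟩ := exists_min (d := d) (m := mm) (r := r0 r) (n := n)
          (by rw [← hT]; exact hpos)
        rw [← hWL] at he
        have heE := hminE e he0 (hself e n he)
        have hey : y < (e : ℝ) := by
          by_contra hcon
          exact h2 e heE (not_lt.1 hcon) he
        have h5 : (e : ℝ) ≤ (((T d m r)^[k] n : ℤ) : ℝ) := by exact_mod_cast he.1 k
        linarith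
      exact_mod_cast Set.ncard_le_ncard hsub hfin)
  -- positivity
  have hpos_iff : ∀ e : ℤ, 0 < e → (0 < D e ↔ (∀ k : ℕ, e ≤ (T d m r)^[k] e) ∧ Deep d m r e) := by
    intro e he
    constructor
    · intro hDp
      have h1 := (hD e he).1
      have hdeep := depth_of_pos hA he hDp (by rw [← hWL]; exact h1)
      constructor
      · -- some element
        have hne : ∃ n, n ∈ WithMin d m r e := by
          by_contra hcon
          push Not at hcon
          have h2 : HasDensity (WithMin d m r e) 0 := by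
            refine tendsto_const_nhds.congr fun N => ?_
            have h3 : {n : ℤ | n ∈ WithMin d m r e ∧ 1 ≤ n ∧ n ≤ (N : ℤ)} = ∅ := by
              ext n
              simp [hcon n]
            rw [h3]
            simp
          have h3 := tendsto_nhds_unique h1 h2
          linarith
        obtain ⟨n, hn⟩ := hne
        exact hself e n hn
      · intro s
        obtain ⟨x, k, h2, h3⟩ := hdeep s
        refine ⟨x, k, by rw [hT]; exact h2, ?_⟩
        rw [nz_card hd] at h3
        rw [hT]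
        exact h3
    · rintro ⟨hmin, hdeep⟩
      refine hDpos e he (pos_of_depth hA hm hM he
        (by rw [← hT]; exact hmin) fun s => ?_)
      obtain ⟨x, k, h2, h3⟩ := hdeep s
      refine ⟨x, k, by rw [← hT]; exact h2, ?_⟩
      rw [nz_card hd, ← hT]
      exact h3
  have hfinish : (E d m r).Finite ↔ ∃ ε : ℝ, 0 < ε ∧ ∀ e ∈ E d m r, 0 < D e → ε ≤ D e := by
    constructor
    · intro hf
      -- a finite set of positive numbers
      by_cases hne : (hf.toFinset.filter fun e => 0 < D e).Nonempty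
      · obtain ⟨e₀, he₀, hmin⟩ := Finset.exists_min_image _ D hne
        rw [Finset.mem_filter] at he₀
        refine ⟨D e₀, he₀.2, fun e he hp => hmin e ?_⟩
        rw [Finset.mem_filter, Set.Finite.mem_toFinset]
        exact ⟨he, hp⟩
      · refine ⟨1, one_pos, fun e he hp => ?_⟩
        exfalso
        apply hne
        refine ⟨e, ?_⟩
        rw [Finset.mem_filter, Set.Finite.mem_toFinset]
        exact ⟨he, hp⟩
    · rintro ⟨ε, hε, hall⟩
      -- only finitely many positive densities
      have hfinpos : {e : ℤ | e ∈ E d m r ∧ 0 < D e}.Finite := by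
        by_contra hinf
        obtain ⟨M, hM'⟩ := exists_nat_gt ((1 - η) / ε)
        obtain ⟨F, hF1, hF2⟩ := (Set.Infinite.exists_subset_card_eq (s := {e : ℤ | e ∈ E d m r ∧ 0 < D e})
          hinf M)
        have h1 : ∑ e ∈ F, D e ≤ 1 - η := by
          have h2 : ∑ e ∈ F, D e =
              ∑ e ∈ F.attach.image (fun e => (⟨e.1, (hF1 e.2).1⟩ : E d m r)), D e := by
            rw [Finset.sum_image, ← Finset.sum_attach F]
            intro a _ b _ hab
            apply Subtype.ext
            have := congrArg Subtype.val hab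
            exact this
          rw [h2, ← hlaw.1.tsum_eq]
          exact hlaw.1.summable.sum_le_tsum _ fun e _ => hD0 e e.2.1
        have h3 : (M : ℝ) * ε ≤ ∑ e ∈ F, D e := by
          rw [← hF2, ← nsmul_eq_mul]
          exact Finset.card_nsmul_le_sum _ _ _ fun e he => hall e (hF1 he).1 (hF1 he).2
        rw [div_lt_iff₀ hε] at hM'
        linarith
      -- the bound
      obtain ⟨B, hB⟩ := hfinpos.bddAbove
      obtain ⟨Rb, hR0, hR⟩ := exists_Rb d (r0 r)
      refine (Set.finite_Icc (0 : ℤ) (max B ⌈Rb⌉)).subset fun e he => ⟨he.1.le, ?_⟩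
      by_contra hcon
      push Not at hcon
      rw [max_lt_iff] at hcon
      obtain ⟨hB1, hB2⟩ := hcon
      have heR : Rb < (e : ℝ) := by
        have h1 : ((⌈Rb⌉ : ℤ) : ℝ) < (e : ℝ) := by exact_mod_cast hB2
        exact lt_of_le_of_lt (Int.le_ceil _) h1
      -- the orbit of `e` stays `≥ e`
      have hd0 : (0 : ℤ) < d := by exact_mod_cast (by omega : 0 < d)
      have hstep : ∀ y : ℤ, e ≤ y → 0 < T d m r y := by
        intro y hy
        rw [hT]
        have h1 : (0 : ℤ) < y := lt_of_lt_of_le he.1 hy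
        refine (sign_step hA hmp hR ?_).1 h1
        have h2 : (e : ℝ) ≤ (y : ℝ) := by exact_mod_cast hy
        rw [abs_of_pos (by exact_mod_cast h1)]
        linarith
      -- positivity of a run of multiples of `d`
      have hnd : ∀ z : ℤ, 0 < z → (∃ k, (∀ j ≤ k, 0 < (T d m r)^[j] z) ∧
          ¬ (d : ℤ) ∣ (T d m r)^[k] z ∧ (T d m r)^[k] z ≤ z) := by
        intro z
        induction hN : z.toNat using Nat.strong_induction_on generalizing z with
        | _ N ih =>
          intro hz
          by_cases h : (d : ℤ) ∣ z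
          · obtain ⟨t, ht⟩ := h
            have hTt : T d m r z = t := by
              unfold T
              rw [if_pos ⟨t, ht⟩, ht, Int.mul_ediv_cancel_left _ hd0.ne']
            have ht0 : 0 < t := by
              by_contra hcon
              push Not at hcon
              nlinarith
            have hd2 : (2 : ℤ) ≤ d := by exact_mod_cast hd
            have htz : t < z := by nlinarith
            obtain ⟨k, h1, h2, h3⟩ := ih t.toNat (by omega) t rfl ht0
            refine ⟨k + 1, ?_, ?_, ?_⟩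
            · intro j hj
              rcases Nat.eq_zero_or_pos j with h0 | h0
              · rw [h0]; exact hz
              · obtain ⟨j', rfl⟩ : ∃ j', j = j' + 1 := ⟨j - 1, by omega⟩
                rw [Function.iterate_succ_apply, hTt]
                exact h1 j' (by omega)
            · rwa [Function.iterate_succ_apply, hTt]
            · rw [Function.iterate_succ_apply, hTt]; linarith
          · exact ⟨0, fun j hj => by
              have : j = 0 := by omega
              rw [this]; exact hz, h, le_rfl⟩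
      have hall' : ∀ k, ∀ j ≤ k, e ≤ (T d m r)^[j] e := by
        intro k
        induction k with
        | zero =>
          intro j hj
          have : j = 0 := by omega
          rw [this]
          exact le_rfl
        | succ k ih =>
          intro j hj
          rcases Nat.lt_or_ge j (k + 1) with h1 | h1
          · exact ih j (by omega)
          · have hjk : j = k + 1 := by omega
            subst hjk
            have h2 := hstep _ (ih k le_rfl)
            rw [← Function.iterate_succ_apply' (T d m r)] at h2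
            obtain ⟨l, h3, h4, h5⟩ := hnd _ h2
            refine le_trans ?_ h5
            rw [← Function.iterate_add_apply] at h4 ⊢
            refine he.2.2 _ ?_ h4
            intro i hi
            rcases Nat.lt_or_ge i (k + 1) with h6 | h6
            · exact lt_of_lt_of_le he.1 (ih i (by omega))
            · obtain ⟨i', rfl⟩ : ∃ i', i = i' + (k + 1) := ⟨i - (k + 1), by omega⟩
              rw [Function.iterate_add_apply]
              exact h3 i' (by omega)
      have hmin : ∀ k, e ≤ (T d m r)^[k] e := fun k => hall' k k le_rfl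
      obtain ⟨e', he', hnot⟩ := exists_pos_above hA hm hM he.1 (by rw [← hT]; exact hmin)
      have he'0 : 0 < e' := lt_of_lt_of_le he.1 he'
      have hDp : 0 < D e' := hDpos e' he'0 hnot
      have h1 := hB ⟨hminE e' he'0 ((hpos_iff e' he'0).1 hDp).1, hDp⟩
      omega
  refine ⟨D, η, C, hC, ⟨hη, ?_⟩, fun e he => (hD e he).1, hpos_iff, hlaw.1, hlaw.2, ?_, hfinish⟩
  · -- no orbit leaves
    intro hr0
    have hstep : ∀ y : ℤ, 0 < y → 0 < T d m r y := by
      intro y hy
      have hd0 : (0 : ℤ) < d := by exact_mod_cast (by omega : 0 < d)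
      have h1 := Pool.Agent.W39.Tm_eq hA y
      rw [← hT] at h1
      obtain ⟨h2, h3⟩ := Pool.Agent.W39.toNat_mod hd y
      have h4 := hmp _ h3
      have h5 : r0 r (y % d).toNat ≤ 0 := by
        unfold r0
        split_ifs with h0
        · exact le_rfl
        · exact hr0 _ (by omega) h3
      have h6 : 0 < (d : ℤ) * T d m r y := by
        rw [h1]
        have := mul_pos h4 hy
        linarith
      exact (mul_pos_iff_of_pos_left hd0).1 h6
    have hit : ∀ n : ℤ, 1 ≤ n → n ∉ Leaving d m r := by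
      rintro n hn ⟨k, hk⟩
      have h1 : ∀ k, 0 < (T d m r)^[k] n := by
        intro k
        induction k with
        | zero => show 0 < n; omega
        | succ k ih =>
          rw [Function.iterate_succ_apply']
          exact hstep _ ih
      have := h1 k
      omega
    have h2 : HasDensity (Leaving d m r) 0 := by
      refine tendsto_const_nhds.congr fun N => ?_
      have h3 : {n : ℤ | n ∈ Leaving d m r ∧ 1 ≤ n ∧ n ≤ (N : ℤ)} = ∅ := by
        ext n
        simp only [Set.mem_ofPred_eq, Set.mem_empty_iff_false, iff_false, not_and]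
        intro h4 h5
        exact absurd h4 (hit n h5)
      rw [h3]
      simp
    exact tendsto_nhds_unique hη h2
  · intro x hx
    obtain ⟨k₀, hk₀⟩ := pos_of_tail hA hm hM (x := x) (fun k => by
      rw [← hT]; exact (hx k).ne')
    refine ⟨k₀, fun k hk hmin => ?_⟩
    refine hDpos _ (hx k) ?_
    have h1 := hk₀ k hk (by rw [← hT]; exact hx k) (by rw [← hT]; exact hmin)
    rw [← hT] at h1
    exact h1

end Pool.Agent.Results.MP_fd8838_nt.LawOfMinima
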