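import Pool.Agent.N317.CL.Abs
import Pool.Agent.Results.MP_fd8838_nt.CaptureRate
import Pool.Agent.Results.MP_fd8838_nt.ExceptionalCapture
import Pool.Agent.Results.MP_fd8838_nt.NaturalDensities

/-!
# Möller's maps: the number of merging classes

Two integers are in the same merging class of `T` if their orbits have an element in common; the classes are the
basins of the cycles and the classes of the divergent orbits. For all coprime `d, m ≥ 2` with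
`m ≤ d ^ (d / (d - 1))` and all admissible `R`, at most `C y ^ (1 - c)` classes meet `[-y, y]`, at most
`C (1 / ε) ^ (1 - c)` classes contain at least `ε X` of the integers of `[-X, X]`, uniformly in `X ≥ 1`, and at most
`C (1 / ε) ^ (1 - c)` classes have a natural density `≥ ε`; here `1 - c` is smaller than the entropy exponent
`h(d, m)` if `m > d`.
-/

set_option autoImplicit false

namespace Pool.Agent.Results.MP_fd8838_nt.MergingClasses

open Filter Topology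
open Pool.Agent.Results.MP_fd8838_nt

/-- the map `T(n) = n / d` if `d ∣ n` and `(m n - r_j) / d` if `n ≡ j mod d`, `1 ≤ j < d` -/
def T (d m : ℕ) (r : ℕ → ℤ) (n : ℤ) : ℤ :=
  if (d : ℤ) ∣ n then n / d else (m * n - r (n % d).toNat) / d

/-- `E` is a merging class: the set of the integers whose orbit has an element in common with the orbit of
some fixed integer `a` -/
def IsClass (d m : ℕ) (r : ℕ → ℤ) (E : Set ℤ) : Prop :=
  ∃ a : ℤ, E = {x : ℤ | ∃ j k : ℕ, (T d m r)^[j] x = (T d m r)^[k] a}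

/-- the number of elements of `E` in `[-X, X]` -/
noncomputable def num (E : Set ℤ) (X : ℝ) : ℝ := ({x : ℤ | x ∈ E ∧ |(x : ℝ)| ≤ X}.ncard : ℝ)

theorem fin_side (E : Set ℤ) (σ : ℤ) (hσ : σ = 1 ∨ σ = -1) (N : ℕ) :
    {x : ℤ | x ∈ E ∧ 1 ≤ σ * x ∧ σ * x ≤ N}.Finite := by
  apply (Set.finite_Icc (-(N : ℤ)) N).subset
  rintro x ⟨-, h1, h2⟩
  rw [Set.mem_Icc]
  rcases hσ with rfl | rfl
  · constructor <;> linarith
  · constructor <;> linarith

/-- the two sides -/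
theorem num_sides (E : Set ℤ) (N : ℕ) :
    |num E N - (({x : ℤ | x ∈ E ∧ 1 ≤ (1 : ℤ) * x ∧ (1 : ℤ) * x ≤ N}.ncard : ℝ) +
      ({x : ℤ | x ∈ E ∧ 1 ≤ (-1 : ℤ) * x ∧ (-1 : ℤ) * x ≤ N}.ncard : ℝ))| ≤ 1 := by
  set A : Set ℤ := {x : ℤ | x ∈ E ∧ 1 ≤ (1 : ℤ) * x ∧ (1 : ℤ) * x ≤ N} with hA
  set B : Set ℤ := {x : ℤ | x ∈ E ∧ 1 ≤ (-1 : ℤ) * x ∧ (-1 : ℤ) * x ≤ N} with hB
  have fA : A.Finite := fin_side E 1 (Or.inl rfl) N
  have fB : B.Finite := fin_side E (-1) (Or.inr rfl) N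
  have hAB : Disjoint A B := by
    rw [Set.disjoint_left]
    rintro x ⟨_, h1, _⟩ ⟨_, h2, _⟩
    omega
  have h1 : (A ∪ B).ncard = A.ncard + B.ncard := Set.ncard_union_eq hAB fA fB
  have h2 : A ∪ B ⊆ {x : ℤ | x ∈ E ∧ |(x : ℝ)| ≤ (N : ℝ)} := by
    rintro x (⟨h0, h1, h2⟩ | ⟨h0, h1, h2⟩)
    · refine ⟨h0, ?_⟩
      have : |x| ≤ (N : ℤ) := abs_le.2 ⟨by linarith, by linarith⟩
      exact_mod_cast this
    · refine ⟨h0, ?_⟩
      have : |x| ≤ (N : ℤ) := abs_le.2 ⟨by linarith, by linarith⟩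
      exact_mod_cast this
  have h3 : {x : ℤ | x ∈ E ∧ |(x : ℝ)| ≤ (N : ℝ)} ⊆ insert 0 (A ∪ B) := by
    rintro x ⟨h0, h1⟩
    have h4 : |x| ≤ (N : ℤ) := by exact_mod_cast h1
    rw [abs_le] at h4
    rcases lt_trichotomy x 0 with h | h | h
    · right; right
      exact ⟨h0, by omega, by omega⟩
    · left; exact h
    · right; left
      exact ⟨h0, by omega, by omega⟩
  have f1 : {x : ℤ | x ∈ E ∧ |(x : ℝ)| ≤ (N : ℝ)}.Finite := Pool.Agent.N317.CL.fin_num E N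
  have h4 := Set.ncard_le_ncard h2 f1
  have h5 := Set.ncard_le_ncard h3 ((fA.union fB).insert 0)
  have h6 := Set.ncard_insert_le (0 : ℤ) (A ∪ B)
  unfold num
  have h7 : ((A ∪ B).ncard : ℝ) = (A.ncard : ℝ) + B.ncard := by rw [h1]; push_cast; ring
  have h8 : ((A ∪ B).ncard : ℝ) ≤ ({x : ℤ | x ∈ E ∧ |(x : ℝ)| ≤ (N : ℝ)}.ncard : ℝ) := by exact_mod_cast h4
  have h9 : ({x : ℤ | x ∈ E ∧ |(x : ℝ)| ≤ (N : ℝ)}.ncard : ℝ) ≤ ((A ∪ B).ncard : ℝ) + 1 := by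
    exact_mod_cast h5.trans h6
  rw [abs_le]
  constructor <;> linarith

/-- the density of an invariant set -/
theorem density (d m : ℕ) (hd : 2 ≤ d) (hm : 2 ≤ m) (hc : Nat.Coprime m d)
    (hle : (m : ℝ) ≤ (d : ℝ) ^ ((d : ℝ) / ((d : ℝ) - 1)))
    (r : ℕ → ℤ) (hr : ∀ j : ℕ, 1 ≤ j → j < d → r j ≡ m * j [ZMOD d]) (E : Set ℤ) (hE : IsClass d m r E) :
    ∃ D : ℝ, 0 ≤ D ∧ Tendsto (fun N : ℕ => num E N / (2 * N)) atTop (𝓝 D) := by
  have hE' : Pool.Agent.N317.CL.IsCl (T d m r) E := hE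
  obtain ⟨a, b, ha, hb⟩ := (NaturalDensities.result d m hd hm hc hle r hr).1 E fun x => hE'.inv x
  have h1 := (ha.add hb).div_const 2
  have h2 : Tendsto (fun N : ℕ => (1 : ℝ) / (2 * N)) atTop (𝓝 0) := by
    have h3 := (tendsto_one_div_atTop_nhds_zero_nat (𝕜 := ℝ)).div_const 2
    rw [zero_div] at h3
    refine h3.congr fun N => ?_
    rw [div_div, mul_comm]
  have h4 : Tendsto (fun N : ℕ => num E N / (2 * N)) atTop (𝓝 ((a + b) / 2)) := by
    rw [tendsto_iff_dist_tendsto_zero] at h1 ⊢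
    have h5 := h1.add h2
    rw [add_zero] at h5
    refine squeeze_zero (fun _ => dist_nonneg) (fun N => ?_) h5
    refine (dist_triangle_left _ _ (((({x : ℤ | x ∈ E ∧ 1 ≤ (1 : ℤ) * x ∧ (1 : ℤ) * x ≤ N}.ncard : ℝ) / N +
      ({x : ℤ | x ∈ E ∧ 1 ≤ (-1 : ℤ) * x ∧ (-1 : ℤ) * x ≤ N}.ncard : ℝ) / N)) / 2)).trans ?_
    rw [add_comm]
    refine add_le_add_right ?_ _
    rcases Nat.eq_zero_or_pos N with h0 | h0
    · subst h0
      simp
    have hN : (0 : ℝ) < N := by exact_mod_cast h0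
    rw [Real.dist_eq]
    have h6 := num_sides E N
    have e : (({x : ℤ | x ∈ E ∧ 1 ≤ (1 : ℤ) * x ∧ (1 : ℤ) * x ≤ N}.ncard : ℝ) / N +
      ({x : ℤ | x ∈ E ∧ 1 ≤ (-1 : ℤ) * x ∧ (-1 : ℤ) * x ≤ N}.ncard : ℝ) / N) / 2 - num E N / (2 * N) =
      -((num E N - (({x : ℤ | x ∈ E ∧ 1 ≤ (1 : ℤ) * x ∧ (1 : ℤ) * x ≤ N}.ncard : ℝ) +
      ({x : ℤ | x ∈ E ∧ 1 ≤ (-1 : ℤ) * x ∧ (-1 : ℤ) * x ≤ N}.ncard : ℝ))) / (2 * N)) := by
      field_simp
      ring
    rw [e, abs_neg, abs_div, abs_of_pos (by positivity : (0 : ℝ) < 2 * N)]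
    gcongr
  refine ⟨(a + b) / 2, ?_, h4⟩
  refine ge_of_tendsto h4 (Eventually.of_forall fun N => ?_)
  unfold num
  positivity

/-- the tails -/
theorem tail (d m : ℕ) (hd : 2 ≤ d) (hm : 2 ≤ m) (hc : Nat.Coprime m d)
    (hle : (m : ℝ) ≤ (d : ℝ) ^ ((d : ℝ) / ((d : ℝ) - 1))) :
    ∃ c : ℝ, 0 < c ∧ c < 1 ∧ (d < m → 1 - Real.qaryEntropy d (Real.log d / Real.log m) / Real.log d < c) ∧
      ∀ r : ℕ → ℤ, (∀ j : ℕ, 1 ≤ j → j < d → r j ≡ m * j [ZMOD d]) →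
      ∃ C : ℝ, 0 < C ∧ ∀ X y : ℝ, 1 ≤ X → 1 ≤ y → Pool.Agent.N317.CL.av (T d m r) X y ≤ C * X / y ^ c := by
  have hmono : ∀ (C X y c c' : ℝ), 0 < C → 1 ≤ X → 1 ≤ y → c ≤ c' → C * X / y ^ c' ≤ C * X / y ^ c := by
    intro C X y c c' hC hX hy hcc
    have h1 : y ^ c ≤ y ^ c' := Real.rpow_le_rpow_of_exponent_le hy hcc
    have h2 : 0 < y ^ c := Real.rpow_pos_of_pos (by linarith) _
    have h3 : 0 ≤ C * X := by positivity
    exact div_le_div_of_nonneg_left h3 h2 h1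
  rcases lt_or_ge d m with hdm | hdm
  · have hlt := CaptureRate.pow_lt hd hc hle
    obtain ⟨h0, h1⟩ := Pool.Agent.TH930.GH.hq_lt hd hdm hlt
    obtain ⟨c, hcc, h⟩ := Pool.Agent.TH930.GH.moller_power hd hdm hc hlt
    have e : Pool.Agent.TH930.GH.hq d m = Real.qaryEntropy d (Real.log d / Real.log m) / Real.log d := rfl
    refine ⟨min c (1 - Pool.Agent.TH930.GH.hq d m / 2), lt_min (by linarith) (by linarith),
      (min_le_right _ _).trans_lt (by linarith), fun _ => ?_, fun r hr => ?_⟩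
    · rw [← e]
      exact lt_min hcc (by linarith)
    · obtain ⟨C, hC, h⟩ := h _ (CaptureRate.adm_r (m := m) hr)
      rw [← CaptureRate.T_eq d m hd r] at h
      exact ⟨C, hC, fun X y hX hy => (h X y hX hy).trans (hmono _ _ _ _ _ hC hX hy (min_le_left _ _))⟩
  · obtain ⟨c, hc0, h⟩ := ExceptionalCapture.result d m hd hm hc hle
    refine ⟨min c (1 / 2), lt_min hc0 (by norm_num), (min_le_right _ _).trans_lt (by norm_num),
      fun h' => absurd h' (by omega), fun r hr => ?_⟩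
    obtain ⟨C, hC, h⟩ := h r hr
    exact ⟨C, hC, fun X y hX hy => (h X y hX hy).2.trans (hmono _ _ _ _ _ hC hX hy (min_le_left _ _))⟩

/-- **The number of merging classes of Möller's maps.** Let `gcd(m, d) = 1` and `2 ≤ m ≤ d ^ (d / (d - 1))`. There is
`c` with `0 < c < 1`, depending only on `d` and `m`, and with `c > 1 - h(d, m)` if `m > d`, where `h(d, m)` is the
`d`-ary entropy of `log d / log m` in base `d`, such that for every admissible `R` there is `C` with: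

(1) for `y ≥ 1` at most `C y ^ (1 - c)` merging classes have an element in `[-y, y]`;

(2) for `X ≥ 1` and `0 < ε ≤ 1` at most `C (1 / ε) ^ (1 - c)` merging classes have at least `ε X` elements in
`[-X, X]`;

(3) every merging class `E` has a natural density `D(E)`, and at most `C (1 / ε) ^ (1 - c)` merging classes have
`D(E) ≥ ε`. -/
theorem result (d m : ℕ) (hd : 2 ≤ d) (hm : 2 ≤ m) (hc : Nat.Coprime m d)
    (hle : (m : ℝ) ≤ (d : ℝ) ^ ((d : ℝ) / ((d : ℝ) - 1))) :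
    ∃ c : ℝ, 0 < c ∧ c < 1 ∧ (d < m → 1 - Real.qaryEntropy d (Real.log d / Real.log m) / Real.log d < c) ∧
      ∀ r : ℕ → ℤ, (∀ j : ℕ, 1 ≤ j → j < d → r j ≡ m * j [ZMOD d]) →
      ∃ C : ℝ, 0 < C ∧
        (∀ y : ℝ, 1 ≤ y → {E : Set ℤ | IsClass d m r E ∧ ∃ x ∈ E, |(x : ℝ)| ≤ y}.Finite ∧
          ({E : Set ℤ | IsClass d m r E ∧ ∃ x ∈ E, |(x : ℝ)| ≤ y}.ncard : ℝ) ≤ C * y ^ (1 - c)) ∧
        (∀ X ε : ℝ, 1 ≤ X → 0 < ε → ε ≤ 1 → {E : Set ℤ | IsClass d m r E ∧ ε * X ≤ num E X}.Finite ∧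
          ({E : Set ℤ | IsClass d m r E ∧ ε * X ≤ num E X}.ncard : ℝ) ≤ C * (1 / ε) ^ (1 - c)) ∧
        ∃ D : Set ℤ → ℝ,
          (∀ E : Set ℤ, IsClass d m r E → 0 ≤ D E ∧ Tendsto (fun N : ℕ => num E N / (2 * N)) atTop (𝓝 (D E))) ∧
          ∀ ε : ℝ, 0 < ε → ε ≤ 1 → {E : Set ℤ | IsClass d m r E ∧ ε ≤ D E}.Finite ∧
            ({E : Set ℤ | IsClass d m r E ∧ ε ≤ D E}.ncard : ℝ) ≤ C * (1 / ε) ^ (1 - c) := by
  classical
  obtain ⟨c, hc0, hc1, hch, h⟩ := tail d m hd hm hc hle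
  refine ⟨c, hc0, hc1, hch, fun r hr => ?_⟩
  obtain ⟨A, hA, h⟩ := h r hr
  set f := T d m r with hf
  obtain ⟨B, hB0, hB⟩ : ∃ B : ℝ, 0 < B ∧ ∀ X : ℝ, 1 ≤ X →
      ({x : ℤ | |(x : ℝ)| ≤ X ∧ Pool.Agent.N317.CL.Mn f x}.ncard : ℝ) ≤ B * X ^ (1 - c) :=
    ⟨_, lt_of_lt_of_le (by norm_num) (le_max_left _ _), Pool.Agent.N317.CL.min_count hA hc1 h⟩
  have hmany : ∀ X ε : ℝ, 1 ≤ X → 0 < ε → ε ≤ 1 → ∀ S : Finset (Set ℤ),
      (∀ E ∈ S, IsClass d m r E ∧ ε * X ≤ num E X) → (S.card : ℝ) ≤ (A + B) * (1 / ε) ^ (1 - c) :=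
    fun X ε hX hε hε1 S hS => Pool.Agent.N317.CL.many h hB hX hε hε1 S hS
  have hfinN : ∀ X ε : ℝ, 1 ≤ X → 0 < ε → {E : Set ℤ | IsClass d m r E ∧ ε * X ≤ num E X}.Finite := by
    intro X ε hX hε
    apply (Pool.Agent.N317.CL.fin_meet f X).subset
    rintro E ⟨hE, hE2⟩
    refine ⟨hE, ?_⟩
    have h1 : 0 < num E X := lt_of_lt_of_le (by positivity) hE2
    unfold num at h1
    have h2 : 0 < ({x : ℤ | x ∈ E ∧ |(x : ℝ)| ≤ X}).ncard := by exact_mod_cast h1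
    obtain ⟨x, hx⟩ := (Set.ncard_pos (Pool.Agent.N317.CL.fin_num E X)).1 h2
    exact ⟨x, hx.1, hx.2⟩
  have hD : ∀ E : Set ℤ, ∃ D : ℝ, IsClass d m r E →
      0 ≤ D ∧ Tendsto (fun N : ℕ => num E N / (2 * N)) atTop (𝓝 D) := by
    intro E
    by_cases hE : IsClass d m r E
    · obtain ⟨D, h1, h2⟩ := density d m hd hm hc hle r hr E hE
      exact ⟨D, fun _ => ⟨h1, h2⟩⟩
    · exact ⟨0, fun h' => absurd h' hE⟩
  choose D hD using hD
  have hDS : ∀ ε : ℝ, 0 < ε → ε ≤ 1 → ∀ S : Finset (Set ℤ), (∀ E ∈ S, IsClass d m r E ∧ ε ≤ D E) →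
      (S.card : ℝ) ≤ (A + B) * (1 / ε) ^ (1 - c) := by
    intro ε hε hε1 S hS
    have h1 : ∀ᶠ N : ℕ in atTop, ∀ E ∈ S, ε * N ≤ num E N := by
      rw [Filter.eventually_all_finset]
      intro E hE
      obtain ⟨hE1, hE2⟩ := hS E hE
      have h2 := (hD E hE1).2.eventually (lt_mem_nhds (show ε / 2 < D E by linarith))
      filter_upwards [h2, eventually_gt_atTop 0] with N hN hN0
      have hN1 : (0 : ℝ) < N := by exact_mod_cast hN0
      rw [lt_div_iff₀ (by positivity)] at hN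
      linarith
    obtain ⟨N, hN1, hN⟩ := ((eventually_ge_atTop 1).and h1).exists
    exact hmany N ε (by exact_mod_cast hN1) hε hε1 S fun E hE => ⟨(hS E hE).1, hN E hE⟩
  refine ⟨A + B, by linarith, ?_, ?_, D, fun E hE => hD E hE, ?_⟩
  · intro y hy
    have hfin := Pool.Agent.N317.CL.fin_meet f y
    refine ⟨hfin, ?_⟩
    have hcard := Set.ncard_eq_toFinset_card _ hfin
    have h1 := Pool.Agent.N317.CL.few_low (hB y hy) hfin.toFinset (by
      intro E hE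
      rw [Set.Finite.mem_toFinset] at hE
      obtain ⟨h1, x, hx, hxy⟩ := hE
      exact ⟨h1, (Pool.Agent.N317.CL.least_le hx).trans hxy⟩)
    have h2 : 0 ≤ y ^ (1 - c) := by positivity
    have h3 : ({E : Set ℤ | IsClass d m r E ∧ ∃ x ∈ E, |(x : ℝ)| ≤ y}.ncard : ℝ) = hfin.toFinset.card := by
      exact_mod_cast hcard
    rw [h3]
    refine h1.trans ?_
    have : 0 ≤ A * y ^ (1 - c) := by positivity
    linarith
  · intro X ε hX hε hε1
    refine ⟨hfinN X ε hX hε, ?_⟩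
    rw [Set.ncard_eq_toFinset_card _ (hfinN X ε hX hε)]
    exact hmany X ε hX hε hε1 _ fun E hE => by rwa [Set.Finite.mem_toFinset] at hE
  · intro ε hε hε1
    have hfin : {E : Set ℤ | IsClass d m r E ∧ ε ≤ D E}.Finite := by
      by_contra hinf
      have hinf' : {E : Set ℤ | IsClass d m r E ∧ ε ≤ D E}.Infinite := hinf
      obtain ⟨n, hn⟩ := exists_nat_gt ((A + B) * (1 / ε) ^ (1 - c))
      obtain ⟨S, hS, hcard⟩ := hinf'.exists_subset_card_eq n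
      have h2 := hDS ε hε hε1 S fun E hE => hS hE
      rw [hcard] at h2
      linarith
    refine ⟨hfin, ?_⟩
    rw [Set.ncard_eq_toFinset_card _ hfin]
    exact hDS ε hε hε1 _ fun E hE => by rwa [Set.Finite.mem_toFinset] at hE

end Pool.Agent.Results.MP_fd8838_nt.MergingClasses
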