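import Pool.Agent.N60.MV.Tail
import Pool.Agent.Results.MP_fd8838_nt.CaptureRate
import Pool.Agent.Results.MP_fd8838_nt.ExceptionalCapture

/-!
# Möller's maps near the values of multiplicative functions

Let `f` be a positive multiplicative function of at most polynomial growth such that `f p ≤ M p` for the large primes `p`,
with different values at different large primes; for example Euler's function or the sum of the divisors. Let `d, m ≥ 2` be
coprime with `m ≤ d ^ (d / (d - 1))` and `R` admissible. For all `u ≤ N` but `N / (log N)^U` NO element of the exceptional set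
`E(d, m, R)` is near `α f(u)^e`, and EVERY integer `x` with `|x|` near `α f(u)^e` has an orbit which descends below `|x|^δ`; if
this orbit stays positive, it passes through an element `≤ |x|^δ` of the exceptional set. The values of `f` are in general
taken with very large multiplicities, and so this does not follow from the size of the exceptional set.

Proof. Write `u = k w` where `k` is composed of the primes `≤ z = N^(1 / J)`, `J` about `log log N`. For most `u` one has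
`k ≤ N^η`, and `w` is a product of at most `J` different primes. So `f(w)` is taken at most `(1 + τ)^J` times, `τ` its number of
divisors, which is at most `N^o(1)` on average, even in mean square: and the exceptional set has only `N^(1 - δ')` elements (the
starting theorems `ExceptionalCapture`, `CaptureRate` of this problem).
-/

set_option autoImplicit false

namespace Pool.Agent.Results.MP_fd8838_nt.MultiplicativeValues

open Pool.Agent.N733.TG (LM Expanding lm_totient lm_sigma keep_windows expanding_pow)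
open Pool.Agent.Results.MP_fd8838_nt

/-- the map `T(n) = n / d` if `d ∣ n` and `(m n - r_j) / d` if `n ≡ j mod d`, `1 ≤ j < d`; the points of a
`T`-orbit that are not divisible by `d` form the `H`-orbit -/
def T (d m : ℕ) (r : ℕ → ℤ) (n : ℤ) : ℤ :=
  if (d : ℤ) ∣ n then n / d else (m * n - r (n % d).toNat) / d

/-- the exceptional set `E(d, m, R)`, in terms of `T`: the integers `e > 0` not divisible by `d` such that,
as long as the orbit of `e` stays positive, its terms not divisible by `d` (the terms of the `H`-orbit)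
are `≥ e` -/
def E (d m : ℕ) (r : ℕ → ℤ) : Set ℤ :=
  {e : ℤ | 0 < e ∧ ¬ (d : ℤ) ∣ e ∧ ∀ k : ℕ, (∀ j ≤ k, 0 < (T d m r)^[j] e) →
    ¬ (d : ℤ) ∣ (T d m r)^[k] e → e ≤ (T d m r)^[k] e}

/-- some `T^k(x)` is at most `y` in absolute value, and if the orbit of `x` stays positive then some `T^k(x)` is an
element `≤ y` of the exceptional set -/
def Captured (d m : ℕ) (r : ℕ → ℤ) (y : ℝ) (x : ℤ) : Prop :=
  (∃ k : ℕ, |(((T d m r)^[k] x : ℤ) : ℝ)| ≤ y) ∧
    ((∀ k : ℕ, 0 < (T d m r)^[k] x) → ∃ k : ℕ, (T d m r)^[k] x ∈ E d m r ∧ (((T d m r)^[k] x : ℤ) : ℝ) ≤ y)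

/-- the tails -/
theorem tail (d m : ℕ) (hd : 2 ≤ d) (hm : 2 ≤ m) (hc : Nat.Coprime m d)
    (hle : (m : ℝ) ≤ (d : ℝ) ^ ((d : ℝ) / ((d : ℝ) - 1))) :
    ∃ c : ℝ, 0 < c ∧ c < 1 ∧ (d < m → 1 - Real.qaryEntropy d (Real.log d / Real.log m) / Real.log d < c) ∧
      ∀ r : ℕ → ℤ, (∀ j : ℕ, 1 ≤ j → j < d → r j ≡ m * j [ZMOD d]) →
      ∃ C : ℝ, 0 < C ∧ ∀ X y : ℝ, 1 ≤ X → 1 ≤ y →
        ({x : ℤ | |(x : ℝ)| ≤ X ∧ ∀ k : ℕ, y < |(((T d m r)^[k] x : ℤ) : ℝ)|}.ncard : ℝ) ≤ C * X / y ^ c := by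
  have hmono : ∀ (C X y c c' : ℝ), 0 < C → 1 ≤ X → 1 ≤ y → c ≤ c' → C * X / y ^ c' ≤ C * X / y ^ c := by
    intro C X y c c' hC hX hy hcc
    have h1 : y ^ c ≤ y ^ c' := Real.rpow_le_rpow_of_exponent_le hy hcc
    have h2 : 0 < y ^ c := Real.rpow_pos_of_pos (by linarith) _
    have h3 : 0 ≤ C * X := by positivity
    exact div_le_div_of_nonneg_left h3 h2 h1
  rcases lt_or_ge d m with hdm | hdm
  · have hlt := CaptureRate.pow_lt hd hc hle
    obtain ⟨h0, h1⟩ := Pool.Agent.TH930.GH.hq_lt hd hdm hlt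
    obtain ⟨c, hcc, h⟩ := Pool.Agent.TH930.GH.moller_power hd hdm hc hlt
    have e : Pool.Agent.TH930.GH.hq d m = Real.qaryEntropy d (Real.log d / Real.log m) / Real.log d := rfl
    refine ⟨min c (1 - Pool.Agent.TH930.GH.hq d m / 2), lt_min (by linarith) (by linarith),
      (min_le_right _ _).trans_lt (by linarith), fun _ => ?_, fun r hr => ?_⟩
    · rw [← e]
      exact lt_min hcc (by linarith)
    · obtain ⟨C, hC, h⟩ := h _ (CaptureRate.adm_r (m := m) hr)
      rw [← CaptureRate.T_eq d m hd r] at h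
      exact ⟨C, hC, fun X y hX hy => (h X y hX hy).trans (hmono _ _ _ _ _ hC hX hy (min_le_left _ _))⟩
  · obtain ⟨c, hc0, h⟩ := ExceptionalCapture.result d m hd hm hc hle
    refine ⟨min c (1 / 2), lt_min hc0 (by norm_num), (min_le_right _ _).trans_lt (by norm_num),
      fun h' => absurd h' (by omega), fun r hr => ?_⟩
    obtain ⟨C, hC, h⟩ := h r hr
    exact ⟨C, hC, fun X y hX hy => (h X y hX hy).2.trans (hmono _ _ _ _ _ hC hX hy (min_le_left _ _))⟩

/-- a positive integer is followed by a positive term not divisible by `d` which is not larger -/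
theorem exists_nd {d m : ℕ} {r : ℕ → ℤ} (hd : 2 ≤ d) (N : ℕ) : ∀ z : ℤ, 0 < z → z.toNat ≤ N →
    ∃ i : ℕ, (∀ j ≤ i, 0 < (T d m r)^[j] z) ∧ ¬ (d : ℤ) ∣ (T d m r)^[i] z ∧ (T d m r)^[i] z ≤ z := by
  induction N with
  | zero => intro z hz h; omega
  | succ N ih =>
    intro z hz hN
    by_cases h : (d : ℤ) ∣ z
    · have hT : T d m r z = z / d := by unfold T; rw [if_pos h]
      obtain ⟨t, ht⟩ := h
      have hd0 : (0 : ℤ) < d := by exact_mod_cast (by omega : 0 < d)
      have hTt : T d m r z = t := by rw [hT, ht, Int.mul_ediv_cancel_left _ hd0.ne']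
      have ht0 : 0 < t := by
        by_contra hcon
        push Not at hcon
        nlinarith
      have hd2 : (2 : ℤ) ≤ d := by exact_mod_cast hd
      have htz : t < z := by nlinarith
      obtain ⟨i, h0, h1, h2⟩ := ih t ht0 (by omega)
      refine ⟨i + 1, ?_, ?_, ?_⟩
      · intro j hj
        rcases j with _ | j
        · simpa using hz
        · rw [Function.iterate_succ_apply, hTt]
          exact h0 j (by omega)
      · rwa [Function.iterate_succ_apply, hTt]
      · rw [Function.iterate_succ_apply, hTt]; linarith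
    · exact ⟨0, fun j hj => by obtain rfl : j = 0 := by omega
                               simpa using hz, h, le_refl _⟩

/-- the orbits of the large elements of `E` stay above them -/
theorem orbit_ge {d m : ℕ} {r : ℕ → ℤ} (hd : 2 ≤ d) (hm : 1 ≤ m)
    (hr : ∀ j : ℕ, 1 ≤ j → j < d → r j ≡ m * j [ZMOD d]) {x : ℤ} (hx : x ∈ E d m r)
    (hbig : ∀ j : ℕ, 1 ≤ j → j < d → r j < x) (k : ℕ) :
    (∀ j ≤ k, 0 < (T d m r)^[j] x) ∧ x ≤ (T d m r)^[k] x := by
  obtain ⟨hx0, hxd, hxE⟩ := hx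
  have hd0 : (0 : ℤ) < d := by exact_mod_cast (by omega : 0 < d)
  have step : ∀ k, (∀ j ≤ k, 0 < (T d m r)^[j] x) → x ≤ (T d m r)^[k] x := by
    intro k hk
    obtain ⟨i, h0, h1, h2⟩ := exists_nd (m := m) (r := r) hd _ ((T d m r)^[k] x) (hk k le_rfl) le_rfl
    have h3 : ∀ j ≤ i + k, 0 < (T d m r)^[j] x := by
      intro j hj
      rcases le_total j k with h | h
      · exact hk j h
      · obtain ⟨t, rfl⟩ := Nat.exists_eq_add_of_le h
        have := h0 t (by omega)
        rwa [← Function.iterate_add_apply, add_comm] at this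
    rw [← Function.iterate_add_apply] at h1 h2
    exact (hxE _ h3 h1).trans h2
  have all : ∀ k, ∀ j ≤ k, 0 < (T d m r)^[j] x := by
    intro k
    induction k with
    | zero =>
      intro j hj
      obtain rfl : j = 0 := by omega
      simpa using hx0
    | succ k ih =>
      intro j hj
      rcases Nat.lt_or_ge j (k + 1) with h | h
      · exact ih j (by omega)
      · obtain rfl : j = k + 1 := by omega
        have h1 := step k ih
        have h2 := ih k le_rfl
        obtain ⟨z, hz⟩ : ∃ z, z = (T d m r)^[k] x := ⟨_, rfl⟩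
        rw [← hz] at h1 h2
        rw [Function.iterate_succ_apply', ← hz]
        unfold T
        by_cases hdz : (d : ℤ) ∣ z
        · rw [if_pos hdz]
          exact Int.ediv_pos_of_pos_of_dvd h2 hd0.le hdz
        · rw [if_neg hdz]
          have hmod0 : 0 ≤ z % (d : ℤ) := Int.emod_nonneg _ hd0.ne'
          have hmodd : z % (d : ℤ) < d := Int.emod_lt_of_pos _ hd0
          have hmod1 : z % (d : ℤ) ≠ 0 := fun h => hdz (Int.dvd_of_emod_eq_zero h)
          obtain ⟨t, ht⟩ : ∃ t : ℕ, z % (d : ℤ) = t := ⟨(z % (d : ℤ)).toNat, by omega⟩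
          rw [ht] at hmod0 hmodd hmod1 ⊢
          rw [Int.toNat_natCast]
          have ht1 : 1 ≤ t := by omega
          have ht2 : t < d := by exact_mod_cast hmodd
          have h3 := hbig t ht1 ht2
          have h4 : (d : ℤ) ∣ m * z - r t := by
            have h5 : (d : ℤ) ∣ m * t - r t := (hr t ht1 ht2).dvd
            have h6 : (d : ℤ) ∣ z - t := by
              rw [← ht]
              exact Int.dvd_self_sub_emod
            have h7 : (m : ℤ) * z - r t = m * (z - t) + (m * t - r t) := by ring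
            rw [h7]
            exact dvd_add (Dvd.dvd.mul_left h6 _) h5
          have hm1 : (1 : ℤ) ≤ m := by exact_mod_cast hm
          have h5 : 0 < (m : ℤ) * z - r t := by nlinarith
          exact Int.ediv_pos_of_pos_of_dvd h5 hd0.le h4
  exact ⟨all k, step k (all k)⟩

/-- an orbit which comes down is captured -/
theorem captured {d m : ℕ} {r : ℕ → ℤ} (hd : 2 ≤ d) {x : ℤ} {y : ℝ}
    (h : ¬ ∀ k : ℕ, y < |(((T d m r)^[k] x : ℤ) : ℝ)|) : Captured d m r y x := by
  push Not at h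
  obtain ⟨k, hk⟩ := h
  refine ⟨⟨k, hk⟩, fun hpos => ?_⟩
  obtain ⟨j, h1, h2⟩ := ExceptionalCapture.capture (m := m) (r := r) hd (n := x) (y := y) (k := k) hpos
    ((le_abs_self _).trans hk)
  exact ⟨j, h1, h2⟩

/-- **Möller's maps near the values of multiplicative functions.** Let `gcd(m, d) = 1` and `2 ≤ m ≤ d ^ (d / (d - 1))`. There is
`c` with `0 < c < 1`, depending only on `d` and `m`, and with `c > 1 - h(d, m)` if `m > d`, where `h(d, m)` is the `d`-ary
entropy of `log d / log m` in base `d`, such that the following holds for every admissible `R`. Let `f` be multiplicative and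
positive, of at most polynomial growth, with `f p ≤ M p` at the large primes, and injective there. Let `G` have steps
`≥ a > 0` and growth at most `v^e`. Let `κ ≥ 0`.

(1) If `e (1 - c) + κ < 1`, then for every `U` and all large `N`, for all `u ≤ N` but `N / (log N)^U`, NO element `x` of the
exceptional set `E(d, m, R)` satisfies `|x - G (f u)| ≤ f(u)^κ`.

(2) If `0 < δ ≤ 1` and `e (1 - c δ) + κ < 1`, then for every `U` and all large `N`, for all `u ≤ N` but `N / (log N)^U`, for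
EVERY integer `x ≠ 0` with `||x| - G (f u)| ≤ f(u)^κ` some `T^k(x)` is at most `|x|^δ` in absolute value, and if the orbit of `x`
stays positive then some `T^k(x)` is an element `≤ |x|^δ` of the exceptional set.

Euler's function and the sum of the divisors are examples of such functions `f`, and `α v^e` with `α > 0`, `e ≥ 1` is an
example of `G`. -/
theorem result :
    (∀ d m : ℕ, 2 ≤ d → 2 ≤ m → Nat.Coprime m d → (m : ℝ) ≤ (d : ℝ) ^ ((d : ℝ) / ((d : ℝ) - 1)) →
      ∃ c : ℝ, 0 < c ∧ c < 1 ∧ (d < m → 1 - Real.qaryEntropy d (Real.log d / Real.log m) / Real.log d < c) ∧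
      ∀ r : ℕ → ℤ, (∀ j : ℕ, 1 ≤ j → j < d → r j ≡ m * j [ZMOD d]) →
      ∀ f : ℕ → ℕ, LM f → ∀ (G : ℕ → ℝ) (e : ℝ), Expanding G e → ∀ κ : ℝ, 0 ≤ κ →
        (e * (1 - c) + κ < 1 → ∀ U : ℕ, ∃ N₀ : ℕ, ∀ N : ℕ, N₀ ≤ N →
          ({u : ℕ | 1 ≤ u ∧ u ≤ N ∧ ∃ x ∈ E d m r, |(x : ℝ) - G (f u)| ≤ (f u : ℝ) ^ κ}.ncard : ℝ) ≤
            N / Real.log N ^ U) ∧
        ∀ δ : ℝ, 0 < δ → δ ≤ 1 → e * (1 - c * δ) + κ < 1 → ∀ U : ℕ, ∃ N₀ : ℕ, ∀ N : ℕ, N₀ ≤ N →
          ({u : ℕ | 1 ≤ u ∧ u ≤ N ∧ ¬ ∀ x : ℤ, x ≠ 0 → |(|x| : ℝ) - G (f u)| ≤ (f u : ℝ) ^ κ →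
            Captured d m r (|(x : ℝ)| ^ δ) x}.ncard : ℝ) ≤ N / Real.log N ^ U) ∧
    (LM Nat.totient ∧ LM (fun m => ∑ d ∈ m.divisors, d)) ∧
    ∀ α d : ℝ, 0 < α → 1 ≤ d → Expanding (fun v => α * (v : ℝ) ^ d) d := by
  refine ⟨fun d m hd hm hc hle => ?_, ⟨lm_totient, lm_sigma⟩, fun α d hα hd => expanding_pow hα hd⟩
  obtain ⟨c, hc0, hc1, hch, htail⟩ := tail d m hd hm hc hle
  refine ⟨c, hc0, hc1, hch, fun r hr f hf G e hG κ hκ => ?_⟩
  obtain ⟨C, hC, hcount⟩ := htail r hr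
  have he := hG.one_le
  have hmono : ∀ (x : ℤ) (y y' : ℝ), y ≤ y' → (∀ k : ℕ, y' < |(((T d m r)^[k] x : ℤ) : ℝ)|) →
      ∀ k : ℕ, y < |(((T d m r)^[k] x : ℤ) : ℝ)| := fun x y y' hy h k => lt_of_le_of_lt hy (h k)
  refine ⟨fun h1 U => ?_, fun δ hδ0 hδ1 h1 U => ?_⟩
  · -- an exponent `δ < 1`
    obtain ⟨δ, hδ⟩ : ∃ δ, δ = 1 - (1 - (e * (1 - c) + κ)) / (2 * e) := ⟨_, rfl⟩
    have he0 : 0 < e := by linarith
    have hcon : 0 ≤ e * (1 - c) := by
      apply mul_nonneg he0.le; linarith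
    have hδ1 : δ < 1 := by
      have : 0 < (1 - (e * (1 - c) + κ)) / (2 * e) := by
        apply div_pos (by linarith) (by linarith)
      rw [hδ]; linarith
    have hδ0 : 0 < δ := by
      have : (1 - (e * (1 - c) + κ)) / (2 * e) ≤ 1 / 2 := by
        rw [div_le_iff₀ (by linarith)]
        linarith
      rw [hδ]; linarith
    have hcδ : c * δ < 1 := by nlinarith
    have h2 : e * (1 - c * δ) + κ < 1 := by
      have e1 : e * (1 - δ) = (1 - (e * (1 - c) + κ)) / 2 := by
        rw [hδ]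
        field_simp
        ring
      have e2 : e * (1 - c * δ) = e * (1 - c) + c * (e * (1 - δ)) := by ring
      have e3 : c * (e * (1 - δ)) ≤ 1 * (e * (1 - δ)) := by
        apply mul_le_mul_of_nonneg_right hc1.le
        apply mul_nonneg he0.le; linarith
      rw [e2]
      linarith
    obtain ⟨K, hK, hcountE⟩ := Pool.Agent.N60.MV.tail_pow (P := fun x y => ∀ k : ℕ, y < |(((T d m r)^[k] x : ℤ) : ℝ)|)
      hmono hC hc0 hcount hδ0 hcδ
    obtain ⟨B, hB⟩ : ∃ B : ℕ, ∀ j : ℕ, 1 ≤ j → j < d → r j < B := by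
      refine ⟨∑ j ∈ Finset.range d, (r j).natAbs + 1, fun j hj1 hj2 => ?_⟩
      have h3 : (r j).natAbs ≤ ∑ j ∈ Finset.range d, (r j).natAbs :=
        Finset.single_le_sum (f := fun j => (r j).natAbs) (fun _ _ => Nat.zero_le _) (Finset.mem_range.2 hj2)
      omega
    refine keep_windows (E d m r) (fun x : ℤ => (x : ℝ)) hf hG (s := 1 - c * δ) (κ := κ) (by linarith) hκ h2
      (fun ε hε => ⟨K + (B + 2), fun X hX => ?_⟩) U
    have hsub : {t : ℤ | t ∈ E d m r ∧ (t : ℝ) ≤ X} ⊆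
        {x : ℤ | |(x : ℝ)| ≤ X ∧ (x ≠ 0 ∧ ∀ k : ℕ, |(x : ℝ)| ^ δ < |(((T d m r)^[k] x : ℤ) : ℝ)|)} ∪
        ((Finset.Icc (0 : ℤ) (B + 1) : Finset ℤ) : Set ℤ) := by
      rintro x ⟨hxE, hxX⟩
      have hx0 : 0 < x := hxE.1
      have hx0' : (0 : ℝ) < x := by exact_mod_cast hx0
      rcases le_or_gt x (B + 1) with h | h
      · right
        rw [Finset.mem_coe, Finset.mem_Icc]
        exact ⟨hx0.le, h⟩
      · left
        refine ⟨by rw [abs_of_pos hx0']; exact hxX, hx0.ne', fun k => ?_⟩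
        obtain ⟨-, h4⟩ := orbit_ge hd (by omega) hr hxE (fun j hj1 hj2 => by
          have := hB j hj1 hj2
          omega) k
        have h5 : (x : ℝ) ≤ (((T d m r)^[k] x : ℤ) : ℝ) := by exact_mod_cast h4
        have h6 : (1 : ℝ) < x := by
          have : (1 : ℤ) < x := by omega
          exact_mod_cast this
        rw [abs_of_pos hx0']
        calc (x : ℝ) ^ δ < (x : ℝ) ^ (1 : ℝ) := Real.rpow_lt_rpow_of_exponent_lt h6 hδ1
          _ = x := Real.rpow_one _
          _ ≤ _ := h5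
          _ ≤ _ := le_abs_self _
    have hfin := (Pool.Agent.N60.MV.fin_abs (fun x : ℤ => x ≠ 0 ∧ ∀ k : ℕ, |(x : ℝ)| ^ δ <
      |(((T d m r)^[k] x : ℤ) : ℝ)|) X).union (Finset.finite_toSet (Finset.Icc (0 : ℤ) (B + 1)))
    refine ⟨hfin.subset hsub, ?_⟩
    have h3 := (Set.ncard_le_ncard hsub hfin).trans (Set.ncard_union_le _ _)
    rw [Set.ncard_coe_finset, Int.card_Icc] at h3
    have h4 : ((({t : ℤ | t ∈ E d m r ∧ (t : ℝ) ≤ X}.ncard : ℕ)) : ℝ) ≤
        ({x : ℤ | |(x : ℝ)| ≤ X ∧ (x ≠ 0 ∧ ∀ k : ℕ, |(x : ℝ)| ^ δ < |(((T d m r)^[k] x : ℤ) : ℝ)|)}.ncard : ℝ) +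
        (B + 2) := by
      have h5 : ((B : ℤ) + 1 + 1 - 0).toNat = B + 2 := by omega
      rw [h5] at h3
      exact_mod_cast h3
    have h5 := hcountE X hX
    have h6 : (1 : ℝ) ≤ X ^ (1 - c * δ) := Real.one_le_rpow hX (by linarith)
    have h7 : X ^ (1 - c * δ) ≤ X ^ (1 - c * δ + ε) := Real.rpow_le_rpow_of_exponent_le hX (by linarith)
    calc ((({t : ℤ | t ∈ E d m r ∧ (t : ℝ) ≤ X}.ncard : ℕ)) : ℝ) ≤ K * X ^ (1 - c * δ) + (B + 2) * 1 := by linarith
      _ ≤ K * X ^ (1 - c * δ) + (B + 2) * X ^ (1 - c * δ) := by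
        have : (0 : ℝ) ≤ B + 2 := by positivity
        have := mul_le_mul_of_nonneg_left h6 this
        linarith
      _ = (K + (B + 2)) * X ^ (1 - c * δ) := by ring
      _ ≤ _ := mul_le_mul_of_nonneg_left h7 (by positivity)
  · obtain ⟨N₀, hN₀⟩ := Pool.Agent.N60.MV.keep_tail (P := fun x y => ∀ k : ℕ, y < |(((T d m r)^[k] x : ℤ) : ℝ)|)
      hmono hC hc0 hcount hδ0 (by nlinarith) hf hG hκ h1 U
    refine ⟨N₀, fun N hN => le_trans ?_ (hN₀ N hN)⟩
    have hfin : {u : ℕ | 1 ≤ u ∧ u ≤ N ∧ ¬ ∀ x : ℤ, x ≠ 0 → |(|x| : ℝ) - G (f u)| ≤ (f u : ℝ) ^ κ →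
        ¬ ∀ k : ℕ, |(x : ℝ)| ^ δ < |(((T d m r)^[k] x : ℤ) : ℝ)|}.Finite := by
      apply (Set.finite_Icc 1 N).subset
      intro u hu
      exact ⟨hu.1, hu.2.1⟩
    have hsub : {u : ℕ | 1 ≤ u ∧ u ≤ N ∧ ¬ ∀ x : ℤ, x ≠ 0 → |(|x| : ℝ) - G (f u)| ≤ (f u : ℝ) ^ κ →
        Captured d m r (|(x : ℝ)| ^ δ) x} ⊆
        {u : ℕ | 1 ≤ u ∧ u ≤ N ∧ ¬ ∀ x : ℤ, x ≠ 0 → |(|x| : ℝ) - G (f u)| ≤ (f u : ℝ) ^ κ →
        ¬ ∀ k : ℕ, |(x : ℝ)| ^ δ < |(((T d m r)^[k] x : ℤ) : ℝ)|} := by
      rintro u ⟨a1, a2, a3⟩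
      exact ⟨a1, a2, fun h => a3 fun x hx0 hx => captured hd (h x hx0 hx)⟩
    exact_mod_cast Set.ncard_le_ncard hsub hfin

end Pool.Agent.Results.MP_fd8838_nt.MultiplicativeValues
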